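import Pool.Agent.BEQ.Stmts

/-!
# BEQ, row NEA: the distance for functions is the operator norm
-/

set_option autoImplicit false

namespace Pool.Agent.BEQ.H75

open Set Filter Topology MeasureTheory
open scoped InnerProductSpace ENNReal
open Pool.Agent Pool.Agent.BE01 Pool.Agent.BEL Pool.Agent.BEH Pool.Agent.BEG Pool.Agent.BEQ
open Pool.Agent.Helper70BE01Conv

theorem sl_of {d : ℕ} {Ω : Set (En d)} {h : En d → ℝ} {f u : Lp ℝ 2 (mu Ω)}
    {F : Lp (En d) 2 (mu Ω)} (hf : f =ᵐ[mu Ω] h) (hF : (u, F) ∈ H10 Ω) (hW : Wk Ω F f) :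
    Sl Ω h (fun x => u x) := by
  refine ⟨F, h10_of hF, fun ψ hψ => ?_⟩
  have h1 := hW ψ hψ
  have h2 : ∫ x, f x * ψ x ∂(mu Ω) = ∫ x, h x * ψ x ∂(mu Ω) := by
    refine integral_congr_ae ?_
    filter_upwards [hf] with x hx
    rw [hx]
  exact h1.trans h2

theorem ind_of {d : ℕ} {D Ω : Set (En d)} (hΩ : IsOpen Ω) {u v : En d → ℝ}
    (h : u =ᵐ[mu Ω] v) : Ω.indicator u =ᵐ[mu D] Ω.indicator v := by
  have h1 : ∀ᵐ x ∂(volume : Measure (En d)), x ∈ Ω → u x = v x :=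
    (ae_restrict_iff' hΩ.measurableSet).1 h
  have h2 : ∀ᵐ x ∂(mu D), x ∈ Ω → u x = v x := ae_restrict_of_ae h1
  filter_upwards [h2] with x hx
  by_cases hxΩ : x ∈ Ω
  · rw [indicator_of_mem hxΩ, indicator_of_mem hxΩ, hx hxΩ]
  · rw [indicator_of_notMem hxΩ, indicator_of_notMem hxΩ]

theorem uniq (unq : Pool.Agent.BEG.UnqStmt) {d : ℕ} {D Ω : Set (En d)} (hd : 0 < d)
    (hΩ : Dom Ω) (hΩD : Ω ⊆ D) {T : Lp ℝ 2 (mu D) →L[ℝ] Lp ℝ 2 (mu D)} (hT : Rv D Ω T)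
    (H : Lp ℝ 2 (mu D)) (h : En d → ℝ) (hH : H =ᵐ[mu D] h) (u : En d → ℝ) (hu : Sl Ω h u) :
    T H =ᵐ[mu D] Ω.indicator u := by
  obtain ⟨f, u0, F0, hf, hF0, hW, hTH⟩ := hT H
  obtain ⟨F, hF, heq⟩ := hu
  have hu2 : MemLp u 2 (mu Ω) := hF.1
  have hF2 : MemLp F 2 (mu Ω) := hF.2.1
  have e1 := hu2.coeFn_toLp
  have e2 := hF2.coeFn_toLp
  have hH2 : H =ᵐ[mu Ω] h := ae_mono (Measure.restrict_mono hΩD le_rfl) hH
  have hfh : f =ᵐ[mu Ω] h := hf.trans hH2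
  have hW2 : Wk Ω (hF2.toLp F) f := by
    intro ψ hψ
    have h1 : ∫ x, ⟪(hF2.toLp F) x, gradient ψ x⟫_ℝ ∂(mu Ω) =
        ∫ x, ⟪F x, gradient ψ x⟫_ℝ ∂(mu Ω) := by
      refine integral_congr_ae ?_
      filter_upwards [e2] with x hx
      rw [hx]
    have h2 : ∫ x, f x * ψ x ∂(mu Ω) = ∫ x, h x * ψ x ∂(mu Ω) := by
      refine integral_congr_ae ?_
      filter_upwards [hfh] with x hx
      rw [hx]
    rw [h1, h2]
    exact heq ψ hψ
  have h3 : u0 = hu2.toLp u := unq d Ω u0 (hu2.toLp u) f F0 (hF2.toLp F) hd hΩ hF0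
    (h10_to e1 e2 hF) hW hW2
  rw [h3] at hTH
  exact hTH.trans (ind_of hΩ.1 e1)

theorem nea (unq : Pool.Agent.BEG.UnqStmt) : NeaStmt := by
  intro d D Ω Ω' T T' ε hd hD hΩ hΩ' hΩD hΩ'D hT hT' hε
  constructor
  · intro hN
    refine ContinuousLinearMap.opNorm_le_of_unit_norm hε fun h hh => ?_
    obtain ⟨f, u, F, hf, hF, hW, hTh⟩ := hT h
    obtain ⟨f', u', F', hf', hF', hW', hTh'⟩ := hT' h
    have hn : BE01F.nrm D (fun x => h x) = ENNReal.ofReal ‖h‖ :=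
      nrm_of h (Filter.EventuallyEq.refl _ _)
    have h1 := hN (fun x => h x) (fun x => u x) (fun x => u' x) (Lp.memLp h)
      (by rw [hn, hh, ENNReal.ofReal_one]) (sl_of hf hF hW) (sl_of hf' hF' hW')
    have h2 : ((T - T') h : Lp ℝ 2 (mu D)) =ᵐ[mu D]
        fun x => Ω.indicator (fun x => u x) x - Ω'.indicator (fun x => u' x) x := by
      have h3 : (T - T') h = T h - T' h := rfl
      rw [h3]
      filter_upwards [Lp.coeFn_sub (T h) (T' h), hTh, hTh'] with x a1 a2 a3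
      rw [a1]
      simp only [Pi.sub_apply]
      rw [a2, a3]
    rw [nrm_of ((T - T') h) h2] at h1
    exact (ENNReal.ofReal_le_ofReal_iff hε).1 h1
  · intro hN h u u' hh hn hu hu'
    have hh2 : MemLp h 2 (mu D) := hh
    set H : Lp ℝ 2 (mu D) := hh2.toLp h with hHdef
    have eH : H =ᵐ[mu D] h := hh2.coeFn_toLp
    have g1 := uniq unq hd hΩ hΩD hT H h eH u hu
    have g2 := uniq unq hd hΩ' hΩ'D hT' H h eH u' hu'
    have h2 : ((T - T') H : Lp ℝ 2 (mu D)) =ᵐ[mu D]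
        fun x => Ω.indicator u x - Ω'.indicator u' x := by
      have h3 : (T - T') H = T H - T' H := rfl
      rw [h3]
      filter_upwards [Lp.coeFn_sub (T H) (T' H), g1, g2] with x a1 a2 a3
      rw [a1]
      simp only [Pi.sub_apply]
      rw [a2, a3]
    rw [nrm_of ((T - T') H) h2]
    apply ENNReal.ofReal_le_ofReal
    have hH1 : ‖H‖ ≤ 1 := by
      rw [nrm_of H eH] at hn
      exact ENNReal.ofReal_le_one.1 hn
    calc ‖(T - T') H‖ ≤ ‖T - T'‖ * ‖H‖ := (T - T').le_opNorm H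
      _ ≤ ε * 1 := mul_le_mul hN hH1 (norm_nonneg _) hε
      _ = ε := mul_one ε

end Pool.Agent.BEQ.H75
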